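import Mathlib

set_option autoImplicit false

/-! Sequences of smooth functions whose derivatives grow at most geometrically. -/

namespace Pool.Agent.Lib.MP_0765f6_an

open Filter Topology ContDiff

/-- A sequence of smooth functions all of whose derivatives are bounded by geometric sequences. -/
def Tame (u : ℕ → ℝ → ℝ) : Prop :=
  (∀ i, ContDiff ℝ ∞ (u i)) ∧
    ∀ k : ℕ, ∃ R : ℝ, 1 ≤ R ∧ ∀ i x, |iteratedDeriv k (u i) x| ≤ R ^ (i + 1)

theorem Tame.mul {u v : ℕ → ℝ → ℝ} (hu : Tame u) (hv : Tame v) :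
    Tame (fun i x => u i x * v i x) := by
  refine ⟨fun i => (hu.1 i).mul (hv.1 i), fun k => ?_⟩
  choose Ru hRu1 hRu using hu.2
  choose Rv hRv1 hRv using hv.2
  set S : ℝ := ∑ j ∈ Finset.range (k + 1), (Ru j + Rv j) with hS
  have hSj : ∀ j ∈ Finset.range (k + 1), Ru j ≤ S ∧ Rv j ≤ S := by
    intro j hj
    have h1 : Ru j + Rv j ≤ S := Finset.single_le_sum (f := fun j => Ru j + Rv j)
      (fun i _ => by have := hRu1 i; have := hRv1 i; linarith) hj
    have := hRu1 j
    have := hRv1 j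
    constructor <;> linarith
  have hS1 : 1 ≤ S := by
    have := (hSj 0 (Finset.mem_range.2 (by omega))).1
    exact (hRu1 0).trans this
  refine ⟨2 ^ k * (S * S), ?_, ?_⟩
  · have h2 : (1 : ℝ) ≤ 2 ^ k := one_le_pow₀ (by norm_num)
    nlinarith [mul_nonneg (sub_nonneg.2 hS1) (sub_nonneg.2 hS1)]
  · intro i x
    rw [← Real.norm_eq_abs, ← norm_iteratedFDeriv_eq_norm_iteratedDeriv]
    refine (norm_iteratedFDeriv_mul_le (hu.1 i) (hv.1 i) x
      (by exact_mod_cast le_top)).trans ?_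
    have h3 : ∀ j ∈ Finset.range (k + 1), ((k.choose j : ℕ) : ℝ) * ‖iteratedFDeriv ℝ j (u i) x‖ *
        ‖iteratedFDeriv ℝ (k - j) (v i) x‖ ≤ ((k.choose j : ℕ) : ℝ) * (S ^ (i + 1) * S ^ (i + 1)) := by
      intro j hj
      rw [mul_assoc]
      apply mul_le_mul_of_nonneg_left _ (Nat.cast_nonneg _)
      have hj' : k - j ∈ Finset.range (k + 1) := Finset.mem_range.2 (by omega)
      have a1 : ‖iteratedFDeriv ℝ j (u i) x‖ ≤ S ^ (i + 1) := by
        rw [norm_iteratedFDeriv_eq_norm_iteratedDeriv, Real.norm_eq_abs]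
        exact (hRu j i x).trans (pow_le_pow_left₀ (by have := hRu1 j; linarith) (hSj j hj).1 _)
      have a2 : ‖iteratedFDeriv ℝ (k - j) (v i) x‖ ≤ S ^ (i + 1) := by
        rw [norm_iteratedFDeriv_eq_norm_iteratedDeriv, Real.norm_eq_abs]
        exact (hRv (k - j) i x).trans (pow_le_pow_left₀ (by have := hRv1 (k - j); linarith)
          (hSj _ hj').2 _)
      exact mul_le_mul a1 a2 (norm_nonneg _) (by positivity)
    refine (Finset.sum_le_sum h3).trans ?_
    rw [← Finset.sum_mul]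
    have h4 : ∑ j ∈ Finset.range (k + 1), ((k.choose j : ℕ) : ℝ) = 2 ^ k := by
      exact_mod_cast Nat.sum_range_choose k
    rw [h4, mul_pow, mul_pow]
    apply mul_le_mul_of_nonneg_right _ (by positivity)
    have h5 : (1 : ℝ) ≤ 2 ^ k := one_le_pow₀ (by norm_num)
    exact le_self_pow₀ h5 (by omega)

theorem Tame.add {u v : ℕ → ℝ → ℝ} (hu : Tame u) (hv : Tame v) :
    Tame (fun i x => u i x + v i x) := by
  refine ⟨fun i => (hu.1 i).add (hv.1 i), fun k => ?_⟩
  obtain ⟨R, hR1, hR⟩ := hu.2 k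
  obtain ⟨R', hR1', hR'⟩ := hv.2 k
  refine ⟨R + R', by linarith, fun i x => ?_⟩
  have h1 : iteratedDeriv k (fun x => u i x + v i x) x =
      iteratedDeriv k (u i) x + iteratedDeriv k (v i) x :=
    iteratedDeriv_fun_add ((hu.1 i).of_le (by exact_mod_cast le_top)).contDiffAt
      ((hv.1 i).of_le (by exact_mod_cast le_top)).contDiffAt
  rw [h1]
  refine (abs_add_le _ _).trans ((add_le_add (hR i x) (hR' i x)).trans ?_)
  exact pow_add_pow_le (by linarith) (by linarith) (by omega)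

theorem Tame.const {c : ℕ → ℝ} {R : ℝ} (hR1 : 1 ≤ R) (hR : ∀ i, |c i| ≤ R ^ (i + 1)) :
    Tame (fun i _ => c i) := by
  refine ⟨fun i => contDiff_const, fun k => ⟨R, hR1, fun i x => ?_⟩⟩
  rw [iteratedDeriv_const]
  split_ifs
  · exact hR i
  · rw [abs_zero]
    positivity

theorem Tame.comp {θ : ℝ → ℝ} (hθ : ContDiff ℝ ∞ θ)
    (hb : ∀ k : ℕ, ∃ C : ℝ, ∀ x, |iteratedDeriv k θ x| ≤ C) {α β : ℕ → ℝ} {R : ℝ} (hR1 : 1 ≤ R)
    (hR : ∀ i, |α i| ≤ R ^ (i + 1)) : Tame (fun i x => θ (α i * x + β i)) := by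
  refine ⟨fun i => hθ.comp (by fun_prop), fun k => ?_⟩
  obtain ⟨C, hC⟩ := hb k
  refine ⟨max C 1 * R ^ k, ?_, fun i x => ?_⟩
  · have h1 : (1 : ℝ) ≤ R ^ k := one_le_pow₀ hR1
    have h2 : (1 : ℝ) ≤ max C 1 := le_max_right _ _
    nlinarith
  · have h1 : iteratedDeriv k (fun x => θ (α i * x + β i)) x =
        (α i) ^ k * iteratedDeriv k θ (α i * x + β i) := by
      have h2 : ContDiff ℝ k (fun y => θ (y + β i)) :=
        (hθ.of_le (by exact_mod_cast le_top)).comp (by fun_prop)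
      have h3 := congrFun (iteratedDeriv_comp_const_mul h2 (α i)) x
      rw [iteratedDeriv_comp_add_const] at h3
      exact h3
    rw [h1, abs_mul, abs_pow, mul_pow, mul_comm]
    have h2 : (1 : ℝ) ≤ max C 1 := le_max_right _ _
    have h3 : |iteratedDeriv k θ (α i * x + β i)| ≤ (max C 1) ^ (i + 1) :=
      ((hC _).trans (le_max_left C 1)).trans (le_self_pow₀ h2 (by omega))
    have h4 : |α i| ^ k ≤ (R ^ k) ^ (i + 1) := by
      rw [← pow_mul, mul_comm k, pow_mul]
      exact pow_le_pow_left₀ (abs_nonneg _) (hR i) _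
    exact mul_le_mul h3 h4 (by positivity) (by positivity)

theorem bd_of_compact {f : ℝ → ℝ} (hf : ContDiff ℝ ∞ f) (hc : HasCompactSupport f) (k : ℕ) :
    ∃ C : ℝ, ∀ x, |iteratedDeriv k f x| ≤ C := by
  have h1 : HasCompactSupport (iteratedFDeriv ℝ k f) := hc.iteratedFDeriv k
  have h2 : Continuous (iteratedFDeriv ℝ k f) :=
    hf.continuous_iteratedFDeriv (by exact_mod_cast le_top)
  obtain ⟨C, hC⟩ := h2.bounded_above_of_compact_support h1
  refine ⟨C, fun x => ?_⟩
  rw [← Real.norm_eq_abs, ← norm_iteratedFDeriv_eq_norm_iteratedDeriv]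
  exact hC x

theorem bd_smooth (k : ℕ) : ∃ C : ℝ, ∀ x, |iteratedDeriv k Real.smoothTransition x| ≤ C := by
  cases k with
  | zero =>
    refine ⟨1, fun x => ?_⟩
    rw [iteratedDeriv_zero, abs_of_nonneg (Real.smoothTransition.nonneg x)]
    exact Real.smoothTransition.le_one x
  | succ k =>
    rw [iteratedDeriv_succ']
    have hθ : ContDiff ℝ ∞ Real.smoothTransition := Real.smoothTransition.contDiff
    apply bd_of_compact
    · exact ((contDiff_infty_iff_deriv (𝕜 := ℝ)).1 hθ).2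
    · apply HasCompactSupport.intro (K := Set.Icc 0 1) isCompact_Icc
      intro x hx
      rw [Set.mem_Icc, not_and_or, not_le, not_le] at hx
      rcases hx with hx | hx
      · have h : Real.smoothTransition =ᶠ[𝓝 x] fun _ => 0 := by
          filter_upwards [gt_mem_nhds hx] with y hy
          exact Real.smoothTransition.zero_of_nonpos hy.le
        rw [h.deriv_eq, deriv_const]
      · have h : Real.smoothTransition =ᶠ[𝓝 x] fun _ => 1 := by
          filter_upwards [lt_mem_nhds hx] with y hy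
          exact Real.smoothTransition.one_of_one_le hy.le
        rw [h.deriv_eq, deriv_const]

theorem Tame.contDiff_tsum {g : ℕ → ℝ → ℝ} (hg : Tame g) {c : ℕ → ℝ}
    (hc : ∀ R : ℝ, 1 ≤ R → Summable (fun i => |c i| * R ^ (i + 1))) :
    ContDiff ℝ ∞ (fun x => ∑' i, c i * g i x) := by
  choose R hR1 hR using hg.2
  have h := _root_.contDiff_tsum (𝕜 := ℝ) (N := ⊤) (f := fun i x => c i * g i x)
    (v := fun k i => |c i| * R k ^ (i + 1)) (fun i => contDiff_const.mul (hg.1 i))
    (fun k _ => hc (R k) (hR1 k)) ?_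
  · exact h
  · intro k i x _
    rw [norm_iteratedFDeriv_eq_norm_iteratedDeriv, Real.norm_eq_abs]
    have h1 : iteratedDeriv k (fun x => c i * g i x) x = c i * iteratedDeriv k (g i) x :=
      iteratedDeriv_const_mul_field (c i) (g i)
    rw [h1, abs_mul]
    exact mul_le_mul_of_nonneg_left (hR k i x) (abs_nonneg _)

end Pool.Agent.Lib.MP_0765f6_an
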