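import Mathlib
import Pool.Agent.Lib.MP_0765f6_an.Tame

set_option autoImplicit false

/-! The infinitely renormalizable smooth interval map. -/

namespace Pool.Agent.Lib.MP_0765f6_an

open Filter Topology ContDiff

noncomputable def ee (i : ℕ) : ℝ := (1 / 2) ^ i
noncomputable def bb (i : ℕ) : ℝ := 1 / 2 + ee i / 2
noncomputable def kk (i : ℕ) : ℝ := ee i / 8
noncomputable def yy (i : ℕ) : ℝ := bb i - kk i * (ee i / 4)
noncomputable def ww : ℕ → ℝ
  | 0 => 0
  | (i + 1) => ww i + kk i * (yy i - ww i)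
noncomputable def cc (i : ℕ) : ℝ := yy i - ww i
noncomputable def LL (i : ℕ) : ℝ := 4 * cc i / ee i
noncomputable def DD (i : ℕ) : ℝ := ∏ j ∈ Finset.range i, LL j
noncomputable def lf : ℕ → ℝ
  | 0 => 0
  | (i + 1) => (ww i + ww (i + 1)) / 2

theorem ee_pos (i : ℕ) : 0 < ee i := by unfold ee; positivity
theorem ee_le_one (i : ℕ) : ee i ≤ 1 := by
  unfold ee
  exact pow_le_one₀ (by norm_num) (by norm_num)
theorem ee_zero : ee 0 = 1 := by simp [ee]
theorem ee_succ (i : ℕ) : ee (i + 1) = ee i / 2 := by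
  unfold ee
  rw [pow_succ]
  ring
theorem ww_zero : ww 0 = 0 := rfl
theorem ww_succ (i : ℕ) : ww (i + 1) = ww i + kk i * cc i := rfl
theorem lf_zero : lf 0 = 0 := rfl
theorem lf_succ (i : ℕ) : lf (i + 1) = (ww i + ww (i + 1)) / 2 := rfl

theorem yy_gt (i : ℕ) : bb (i + 1) < yy i := by
  have h1 := ee_pos i
  have h2 := ee_le_one i
  simp only [bb, yy, kk, ee_succ]
  nlinarith

theorem bb_gt (i : ℕ) : 1 / 2 < bb i := by
  have h1 := ee_pos i
  simp only [bb]
  linarith

theorem bb_le_one (i : ℕ) : bb i ≤ 1 := by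
  have h1 := ee_le_one i
  simp only [bb]
  linarith

theorem yy_lt (i : ℕ) : yy i < bb i := by
  have h1 := ee_pos i
  simp only [yy, kk]
  nlinarith

theorem yy_gt_half (i : ℕ) : 1 / 2 < yy i := (bb_gt (i + 1)).trans (yy_gt i)

theorem ww_bounds (i : ℕ) : 0 ≤ ww i ∧ ww i ≤ 1 / 4 - ee i / 4 := by
  induction i with
  | zero => simp [ww_zero, ee_zero]
  | succ i ih =>
    have h1 := ee_pos i
    have h2 := ee_le_one i
    have h3 : cc i ≤ 1 := by
      have := yy_lt i
      have := bb_le_one i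
      unfold cc
      linarith [ih.1]
    have h4 : 0 ≤ cc i := by
      have := yy_gt_half i
      unfold cc
      linarith [ih.2]
    rw [ww_succ, ee_succ]
    unfold kk
    constructor
    · have := mul_nonneg (by positivity : 0 ≤ ee i / 8) h4
      linarith [ih.1]
    · have : ee i / 8 * cc i ≤ ee i / 8 * 1 := mul_le_mul_of_nonneg_left h3 (by positivity)
      linarith [ih.2]

theorem ww_nonneg (i : ℕ) : 0 ≤ ww i := (ww_bounds i).1
theorem ww_lt (i : ℕ) : ww i < 1 / 4 := by
  have := (ww_bounds i).2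
  have := ee_pos i
  linarith

theorem cc_gt (i : ℕ) : 1 / 4 < cc i := by
  have := yy_gt_half i
  have := ww_lt i
  unfold cc
  linarith

theorem cc_pos (i : ℕ) : 0 < cc i := by linarith [cc_gt i]

theorem cc_le_one (i : ℕ) : cc i ≤ 1 := by
  have := yy_lt i
  have := bb_le_one i
  have := ww_nonneg i
  unfold cc
  linarith

theorem kk_pos (i : ℕ) : 0 < kk i := by
  have := ee_pos i
  unfold kk
  linarith

theorem kk_le (i : ℕ) : kk i ≤ 1 / 8 := by
  have := ee_le_one i
  unfold kk
  linarith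

theorem ww_lt_succ (i : ℕ) : ww i < ww (i + 1) := by
  rw [ww_succ]
  have := mul_pos (kk_pos i) (cc_pos i)
  linarith

theorem ww_lt_lf (i : ℕ) : ww i < lf (i + 1) := by
  rw [lf_succ]
  linarith [ww_lt_succ i]

theorem lf_lt_ww (i : ℕ) : lf (i + 1) < ww (i + 1) := by
  rw [lf_succ]
  linarith [ww_lt_succ i]

theorem lf_le_ww (i : ℕ) : lf i ≤ ww i := by
  cases i with
  | zero => exact le_refl _
  | succ i => exact (lf_lt_ww i).le

theorem bb_succ_lt (i : ℕ) : bb (i + 1) < bb i := (yy_gt i).trans (yy_lt i)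

theorem bb_anti : Antitone bb := antitone_nat_of_succ_le fun i => (bb_succ_lt i).le
theorem ww_mono : StrictMono ww := strictMono_nat_of_lt_succ ww_lt_succ

theorem lf_mono : Monotone lf := by
  apply monotone_nat_of_le_succ
  intro i
  exact (lf_le_ww i).trans (ww_lt_lf i).le

theorem yy_sub (i : ℕ) : kk i * cc i ≤ yy i - yy (i + 1) := by
  have h1 := ee_pos i
  have h2 := ee_le_one i
  have h3 : kk i * cc i ≤ kk i * 1 := mul_le_mul_of_nonneg_left (cc_le_one i) (kk_pos i).le
  refine h3.trans ?_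
  simp only [yy, kk, bb, ee_succ]
  nlinarith

theorem cc_succ_le (i : ℕ) : cc (i + 1) ≤ (1 - 2 * kk i) * cc i := by
  have h1 := yy_sub i
  have h2 := ww_succ i
  have h3 : cc (i + 1) = yy (i + 1) - ww (i + 1) := rfl
  have h4 : cc i = yy i - ww i := rfl
  rw [h3, h2]
  linarith

theorem cc_anti (i : ℕ) : cc (i + 1) ≤ cc i := by
  have h1 := cc_succ_le i
  have h2 := mul_pos (kk_pos i) (cc_pos i)
  linarith

theorem LL_mul (i : ℕ) : LL i * (ee i / 4) = cc i := by
  have := (ee_pos i).ne'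
  unfold LL
  field_simp

theorem LL_gt (i : ℕ) : 1 < ee i * LL i := by
  have h1 := LL_mul i
  have h2 := cc_gt i
  linarith

theorem LL_pos (i : ℕ) : 0 < LL i := by
  have h1 := LL_gt i
  have h2 := ee_pos i
  by_contra h
  push Not at h
  have := mul_nonpos_of_nonneg_of_nonpos h2.le h
  linarith

theorem LL_one (i : ℕ) : 1 < LL i := by
  have h1 := LL_gt i
  have h2 := ee_pos i
  have h3 := ee_le_one i
  have h4 := LL_pos i
  nlinarith

theorem DD_succ (i : ℕ) : DD (i + 1) = DD i * LL i := by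
  unfold DD
  rw [Finset.prod_range_succ]

theorem DD_zero : DD 0 = 1 := by simp [DD]

theorem DD_pos (i : ℕ) : 0 < DD i := Finset.prod_pos fun j _ => LL_pos j

theorem DD_summable (R : ℝ) (hR : 1 ≤ R) : Summable (fun i => R ^ (i + 1) / DD i) := by
  have hR0 : 0 < R := by linarith
  apply summable_of_ratio_test_tendsto_lt_one (l := 0) one_pos
  · exact Filter.Eventually.of_forall fun i => (div_pos (pow_pos hR0 _) (DD_pos i)).ne'
  · have h1 : ∀ i, ‖R ^ (i + 1 + 1) / DD (i + 1)‖ / ‖R ^ (i + 1) / DD i‖ = R / LL i := by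
      intro i
      have a1 := DD_pos i
      have a2 := LL_pos i
      have a3 : 0 < R ^ (i + 1) := pow_pos hR0 _
      rw [Real.norm_of_nonneg (by have := DD_pos (i + 1); positivity),
        Real.norm_of_nonneg (by positivity), DD_succ, pow_succ R (i + 1)]
      field_simp
    have h2 : Tendsto (fun i => R * ee i) atTop (𝓝 0) := by
      have : Tendsto ee atTop (𝓝 0) :=
        tendsto_pow_atTop_nhds_zero_of_lt_one (by norm_num) (by norm_num)
      simpa using this.const_mul R
    simp only [h1]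
    refine squeeze_zero (fun i => (div_pos hR0 (LL_pos i)).le) (fun i => ?_) h2
    rw [div_le_iff₀ (LL_pos i), mul_assoc]
    have := LL_gt i
    nlinarith

/-- Cut-off identity. -/
noncomputable def chi (s : ℝ) : ℝ :=
  s * (Real.smoothTransition (s + 1) * Real.smoothTransition (2 - s))

/-- Smoothed linear profile. -/
noncomputable def rho (κ s : ℝ) : ℝ :=
  chi s * Real.smoothTransition (s / κ) * (1 - Real.smoothTransition ((s - 1 + κ) / κ)) +
    Real.smoothTransition ((s - 1 + κ) / κ)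

theorem chi_eq {s : ℝ} (h0 : 0 ≤ s) (h1 : s ≤ 1) : chi s = s := by
  unfold chi
  rw [Real.smoothTransition.one_of_one_le (by linarith),
    Real.smoothTransition.one_of_one_le (by linarith)]
  ring

theorem rho_of_nonpos {κ s : ℝ} (hκ : 0 < κ) (hκ1 : κ < 1) (hs : s ≤ 0) : rho κ s = 0 := by
  unfold rho
  rw [Real.smoothTransition.zero_of_nonpos (div_nonpos_of_nonpos_of_nonneg hs hκ.le),
    Real.smoothTransition.zero_of_nonpos
      (div_nonpos_of_nonpos_of_nonneg (by linarith) hκ.le)]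
  ring

theorem rho_of_ge {κ s : ℝ} (hκ : 0 < κ) (hs : 1 ≤ s) : rho κ s = 1 := by
  unfold rho
  have h1 : 1 ≤ (s - 1 + κ) / κ := by
    rw [le_div_iff₀ hκ]; linarith
  rw [Real.smoothTransition.one_of_one_le h1]
  ring

theorem rho_mid {κ s : ℝ} (hκ : 0 < κ) (h1 : κ ≤ s) (h2 : s ≤ 1 - κ) : rho κ s = s := by
  unfold rho
  have h3 : 1 ≤ s / κ := by
    rw [le_div_iff₀ hκ]; linarith
  rw [Real.smoothTransition.one_of_one_le h3, Real.smoothTransition.zero_of_nonpos
    (div_nonpos_of_nonpos_of_nonneg (by linarith) hκ.le), chi_eq (by linarith) (by linarith)]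
  ring

theorem rho_range {κ s : ℝ} (hκ : 0 < κ) (hκ1 : κ < 1) : 0 ≤ rho κ s ∧ rho κ s ≤ 1 := by
  rcases le_or_gt s 0 with h | h
  · rw [rho_of_nonpos hκ hκ1 h]; norm_num
  rcases le_or_gt 1 s with h' | h'
  · rw [rho_of_ge hκ h']; norm_num
  unfold rho
  rw [chi_eq h.le h'.le]
  set A := Real.smoothTransition (s / κ)
  set B := Real.smoothTransition ((s - 1 + κ) / κ)
  have hA0 : 0 ≤ A := Real.smoothTransition.nonneg _
  have hA1 : A ≤ 1 := Real.smoothTransition.le_one _
  have hB0 : 0 ≤ B := Real.smoothTransition.nonneg _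
  have hB1 : B ≤ 1 := Real.smoothTransition.le_one _
  have hsA0 : 0 ≤ s * A := mul_nonneg h.le hA0
  have hsA1 : s * A ≤ 1 := by nlinarith
  constructor
  · have := mul_nonneg hsA0 (sub_nonneg.2 hB1)
    linarith
  · have := mul_le_mul_of_nonneg_right hsA1 (sub_nonneg.2 hB1)
    linarith

/-- The bumps. -/
noncomputable def gg (i : ℕ) (x : ℝ) : ℝ :=
  cc i * (Real.smoothTransition (2 / (kk i * cc i) * (x - ww i)) *
    rho (kk i) (4 / ee i * (bb i - x)))

theorem gg_left {i : ℕ} {x : ℝ} (h : x ≤ ww i) : gg i x = 0 := by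
  unfold gg
  have h1 : 0 < 2 / (kk i * cc i) := div_pos two_pos (mul_pos (kk_pos i) (cc_pos i))
  rw [Real.smoothTransition.zero_of_nonpos (mul_nonpos_of_nonneg_of_nonpos h1.le (by linarith))]
  ring

theorem gg_right {i : ℕ} {x : ℝ} (h : bb i ≤ x) : gg i x = 0 := by
  unfold gg
  have h1 : 0 < 4 / ee i := div_pos four_pos (ee_pos i)
  rw [rho_of_nonpos (kk_pos i) (by linarith [kk_le i])
    (mul_nonpos_of_nonneg_of_nonpos h1.le (by linarith))]
  ring

theorem left_one {i : ℕ} {x : ℝ} (h : lf (i + 1) ≤ x) :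
    Real.smoothTransition (2 / (kk i * cc i) * (x - ww i)) = 1 := by
  apply Real.smoothTransition.one_of_one_le
  have h1 : 0 < kk i * cc i := mul_pos (kk_pos i) (cc_pos i)
  rw [div_mul_eq_mul_div, le_div_iff₀ h1]
  have h2 := lf_succ i
  have h3 := ww_succ i
  linarith

theorem gg_mid {i : ℕ} {x : ℝ} (h : lf (i + 1) ≤ x) (h' : x ≤ bb (i + 1)) : gg i x = cc i := by
  unfold gg
  rw [left_one h, rho_of_ge (kk_pos i)]
  · ring
  · have h1 := ee_pos i
    rw [div_mul_eq_mul_div, le_div_iff₀ h1]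
    simp only [bb, ee_succ] at h' ⊢
    linarith

theorem gg_affine {i : ℕ} {x : ℝ} (h : lf (i + 1) ≤ x) (h1 : kk i ≤ 4 / ee i * (bb i - x))
    (h2 : 4 / ee i * (bb i - x) ≤ 1 - kk i) : gg i x = LL i * (bb i - x) := by
  unfold gg
  rw [left_one h, rho_mid (kk_pos i) h1 h2]
  unfold LL
  ring

theorem gg_range (i : ℕ) (x : ℝ) : 0 ≤ gg i x ∧ gg i x ≤ cc i := by
  unfold gg
  have h1 := rho_range (s := 4 / ee i * (bb i - x)) (kk_pos i) (by linarith [kk_le i])
  have h2 := Real.smoothTransition.nonneg (2 / (kk i * cc i) * (x - ww i))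
  have h3 := Real.smoothTransition.le_one (2 / (kk i * cc i) * (x - ww i))
  set A := Real.smoothTransition (2 / (kk i * cc i) * (x - ww i))
  set B := rho (kk i) (4 / ee i * (bb i - x))
  have h4 := cc_pos i
  have h5 : 0 ≤ A * B := mul_nonneg h2 h1.1
  have h6 : A * B ≤ 1 := by nlinarith [h1.1, h1.2]
  constructor
  · positivity
  · have := mul_le_mul_of_nonneg_left h6 h4.le
    linarith

theorem tame_gg : Tame gg := by
  have hθ : ContDiff ℝ ∞ Real.smoothTransition := Real.smoothTransition.contDiff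
  have hchi : ContDiff ℝ ∞ chi := by
    unfold chi
    exact contDiff_id.mul ((hθ.comp (by fun_prop)).mul (hθ.comp (by fun_prop)))
  have hchi_c : HasCompactSupport chi := by
    apply HasCompactSupport.intro (K := Set.Icc (-1) 2) isCompact_Icc
    intro x hx
    rw [Set.mem_Icc, not_and_or, not_le, not_le] at hx
    unfold chi
    rcases hx with hx | hx
    · rw [Real.smoothTransition.zero_of_nonpos (x := x + 1) (by linarith)]
      ring
    · rw [Real.smoothTransition.zero_of_nonpos (x := 2 - x) (by linarith)]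
      ring
  have he : ∀ i, 1 / ee i = 2 ^ i := by
    intro i
    unfold ee
    rw [one_div, one_div, inv_pow, inv_inv]
  have heb : ∀ (C : ℝ) (i : ℕ), 1 ≤ C → |(-(C * (1 / ee i)))| ≤ (2 * C) ^ (i + 1) := by
    intro C i hC
    have hC0 : 0 ≤ C := by linarith
    rw [he, abs_neg, abs_of_nonneg (by positivity), mul_pow]
    have a1 : C ≤ C ^ (i + 1) := le_self_pow₀ hC (by omega)
    have a2 : (2 : ℝ) ^ i ≤ 2 ^ (i + 1) := pow_le_pow_right₀ (by norm_num) (by omega)
    calc C * 2 ^ i = 2 ^ i * C := by ring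
      _ ≤ 2 ^ (i + 1) * C ^ (i + 1) := mul_le_mul a2 a1 hC0 (by positivity)
  have t0 : Tame (fun i _ => cc i) := by
    apply Tame.const (R := 1) le_rfl
    intro i
    rw [abs_of_pos (cc_pos i), one_pow]
    exact cc_le_one i
  have t1 : Tame (fun i x => Real.smoothTransition (2 / (kk i * cc i) * x +
      -(2 / (kk i * cc i) * ww i))) := by
    apply Tame.comp hθ bd_smooth (R := 128) (by norm_num)
    intro i
    have h1 := mul_pos (kk_pos i) (cc_pos i)
    rw [abs_of_pos (by positivity)]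
    have h2 : 2 / (kk i * cc i) ≤ 64 * (1 / ee i) := by
      rw [div_le_iff₀ h1]
      have h3 := ee_pos i
      unfold kk
      have h4 : 64 * (1 / ee i) * (ee i / 8 * cc i) = 8 * cc i := by
        field_simp
        ring
      rw [h4]
      linarith [cc_gt i]
    refine h2.trans ?_
    have := heb 64 i (by norm_num)
    rw [abs_neg] at this
    have h5 := le_abs_self (64 * (1 / ee i))
    norm_num at this h5 ⊢
    linarith
  have t2 : Tame (fun i x => chi (-(4 * (1 / ee i)) * x + 4 / ee i * bb i)) :=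
    Tame.comp hchi (bd_of_compact hchi hchi_c) (R := 2 * 4) (by norm_num)
      (fun i => heb 4 i (by norm_num))
  have he2 : ∀ i : ℕ, |(-(32 * (1 / ee i) * (1 / ee i)))| ≤ (64 * 64 : ℝ) ^ (i + 1) := by
    intro i
    have h1 := heb 32 i (by norm_num)
    rw [abs_neg, abs_mul, mul_pow]
    rw [abs_neg] at h1
    have h2 := heb 1 i (by norm_num)
    rw [abs_neg, one_mul] at h2
    have h3 : (2 * 32 : ℝ) ^ (i + 1) = 64 ^ (i + 1) := by norm_num
    have h4 : (2 * 1 : ℝ) ^ (i + 1) ≤ 64 ^ (i + 1) :=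
      pow_le_pow_left₀ (by norm_num) (by norm_num) _
    rw [h3] at h1
    exact mul_le_mul h1 (h2.trans h4) (abs_nonneg _) (by positivity)
  have t3 : Tame (fun i x => Real.smoothTransition (-(32 * (1 / ee i) * (1 / ee i)) * x +
      4 / ee i * bb i / kk i)) :=
    Tame.comp hθ bd_smooth (R := 64 * 64) (by norm_num) he2
  have t4 : Tame (fun i x => Real.smoothTransition (-(32 * (1 / ee i) * (1 / ee i)) * x +
      (4 / ee i * bb i - 1 + kk i) / kk i)) :=
    Tame.comp hθ bd_smooth (R := 64 * 64) (by norm_num) he2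
  have tm : Tame (fun _ _ => (-1 : ℝ)) := Tame.const (R := 1) le_rfl (by simp)
  have tone : Tame (fun _ _ => (1 : ℝ)) := Tame.const (R := 1) le_rfl (by simp)
  have t5 := t0.mul (t1.mul (((t2.mul t3).mul (tone.add (tm.mul t4))).add t4))
  have hfin : gg = fun i x => cc i * (Real.smoothTransition (2 / (kk i * cc i) * x +
      -(2 / (kk i * cc i) * ww i)) * (chi (-(4 * (1 / ee i)) * x + 4 / ee i * bb i) *
      Real.smoothTransition (-(32 * (1 / ee i) * (1 / ee i)) * x + 4 / ee i * bb i / kk i) *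
      (1 + -1 * Real.smoothTransition (-(32 * (1 / ee i) * (1 / ee i)) * x +
      (4 / ee i * bb i - 1 + kk i) / kk i)) +
      Real.smoothTransition (-(32 * (1 / ee i) * (1 / ee i)) * x +
      (4 / ee i * bb i - 1 + kk i) / kk i))) := by
    funext i x
    have h1 := (ee_pos i).ne'
    have h2 := (kk_pos i).ne'
    have a1 : 2 / (kk i * cc i) * (x - ww i) = 2 / (kk i * cc i) * x +
      -(2 / (kk i * cc i) * ww i) := by ring
    have a2 : 4 / ee i * (bb i - x) = -(4 * (1 / ee i)) * x + 4 / ee i * bb i := by ring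
    have a3 : (4 / ee i * (bb i - x)) / kk i =
        -(32 * (1 / ee i) * (1 / ee i)) * x + 4 / ee i * bb i / kk i := by
      unfold kk
      field_simp
      ring
    have a4 : (4 / ee i * (bb i - x) - 1 + kk i) / kk i =
        -(32 * (1 / ee i) * (1 / ee i)) * x + (4 / ee i * bb i - 1 + kk i) / kk i := by
      unfold kk
      field_simp
      ring
    unfold gg rho
    rw [a3, a4, a1, a2]
    ring
  rw [hfin]
  exact t5

end Pool.Agent.Lib.MP_0765f6_an
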