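import Mathlib
import Pool.Agent.Lib.MP_0765f6_an.Map

set_option autoImplicit false

/-! Renormalization structure of the smooth map. -/

namespace Pool.Agent.Lib.MP_0765f6_an

open Filter Topology ContDiff

/-- Partial sums of the tails. -/
noncomputable def hN : ℕ → ℕ → ℝ → ℝ
  | 0 => fun _ _ => 0
  | (m + 1) => fun i t => gg i t - hN m (i + 1) t / LL i

/-- The tails. -/
noncomputable def hh (i : ℕ) (t : ℝ) : ℝ := ∑' j : ℕ, (-1) ^ j * gg (i + j) t * (DD i / DD (i + j))

/-- The map. -/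
noncomputable def ff (t : ℝ) : ℝ := ∑' i : ℕ, ((-1) ^ i / DD i) * gg i t

theorem ff_contDiff : ContDiff ℝ ∞ ff := by
  apply tame_gg.contDiff_tsum
  intro R hR
  refine (DD_summable R hR).congr (fun i => ?_)
  rw [abs_div, abs_pow, abs_neg, abs_one, one_pow, abs_of_pos (DD_pos i)]
  ring

theorem term_summable (i : ℕ) (t : ℝ) :
    Summable (fun j : ℕ => (-1) ^ j * gg (i + j) t * (DD i / DD (i + j))) := by
  have h1 : Summable (fun j : ℕ => DD i * (1 ^ (i + j + 1) / DD (i + j))) := by
    apply Summable.mul_left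
    have := (summable_nat_add_iff i).2 (DD_summable 1 le_rfl)
    refine this.congr (fun j => ?_)
    rw [add_comm j i]
  refine Summable.of_norm_bounded h1 (fun j => ?_)
  have h2 := gg_range (i + j) t
  have h3 := cc_le_one (i + j)
  have h4 := DD_pos i
  have h5 := DD_pos (i + j)
  rw [Real.norm_eq_abs, abs_mul, abs_mul, abs_pow, abs_neg, abs_one, one_pow, one_mul,
    abs_of_nonneg h2.1, abs_of_pos (div_pos h4 h5), one_pow]
  have h6 : gg (i + j) t * (DD i / DD (i + j)) ≤ 1 * (DD i / DD (i + j)) :=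
    mul_le_mul_of_nonneg_right (h2.2.trans h3) (div_pos h4 h5).le
  refine h6.trans (le_of_eq ?_)
  ring

theorem hN_eq_sum (m : ℕ) : ∀ (i : ℕ) (t : ℝ), hN m i t =
    ∑ j ∈ Finset.range m, (-1) ^ j * gg (i + j) t * (DD i / DD (i + j)) := by
  induction m with
  | zero => intro i t; simp [hN]
  | succ m ih =>
    intro i t
    rw [Finset.sum_range_succ']
    have h1 := (DD_pos i).ne'
    have h2 := (LL_pos i).ne'
    have h3 : hN (m + 1) i t = gg i t - hN m (i + 1) t / LL i := rfl
    rw [h3, ih (i + 1) t, Finset.sum_div]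
    have h4 : ∀ j ∈ Finset.range m, (-1) ^ (j + 1) * gg (i + (j + 1)) t *
        (DD i / DD (i + (j + 1))) =
        -((-1) ^ j * gg (i + 1 + j) t * (DD (i + 1) / DD (i + 1 + j)) / LL i) := by
      intro j _
      have e1 : i + (j + 1) = i + 1 + j := by ring
      have h5 := (DD_pos (i + 1 + j)).ne'
      rw [e1, DD_succ, pow_succ]
      field_simp
    rw [Finset.sum_congr rfl h4, Finset.sum_neg_distrib]
    simp only [pow_zero, add_zero, one_mul]
    rw [div_self h1]
    ring

theorem hN_tendsto (i : ℕ) (t : ℝ) : Tendsto (fun m => hN m i t) atTop (𝓝 (hh i t)) := by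
  simp only [hN_eq_sum]
  exact (term_summable i t).hasSum.tendsto_sum_nat

theorem hh_rec (i : ℕ) (t : ℝ) : hh i t = gg i t - hh (i + 1) t / LL i := by
  have h1 := (tendsto_add_atTop_iff_nat 1).2 (hN_tendsto i t)
  have h2 : Tendsto (fun m => gg i t - hN m (i + 1) t / LL i) atTop
      (𝓝 (gg i t - hh (i + 1) t / LL i)) :=
    ((hN_tendsto (i + 1) t).div_const _).const_sub _
  exact tendsto_nhds_unique h1 h2

theorem ff_eq (t : ℝ) : ff t = hh 0 t := by
  unfold ff hh
  congr 1
  funext j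
  rw [DD_zero, zero_add]
  ring

theorem hN_left (m : ℕ) : ∀ (i : ℕ) (t : ℝ), t ≤ ww i → hN m i t = 0 := by
  induction m with
  | zero => intro i t _; rfl
  | succ m ih =>
    intro i t h
    have h3 : hN (m + 1) i t = gg i t - hN m (i + 1) t / LL i := rfl
    rw [h3, gg_left h, ih (i + 1) t (h.trans (ww_lt_succ i).le)]
    simp

theorem hN_right (m : ℕ) : ∀ (i : ℕ) (t : ℝ), bb i ≤ t → hN m i t = 0 := by
  induction m with
  | zero => intro i t _; rfl
  | succ m ih =>
    intro i t h
    have h3 : hN (m + 1) i t = gg i t - hN m (i + 1) t / LL i := rfl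
    rw [h3, gg_right h, ih (i + 1) t ((bb_succ_lt i).le.trans h)]
    simp

theorem hN_range (m : ℕ) : ∀ (i : ℕ) (t : ℝ), 0 ≤ hN m i t ∧ hN m i t ≤ cc i := by
  induction m with
  | zero => intro i t; exact ⟨le_rfl, (cc_pos i).le⟩
  | succ m ih =>
    intro i t
    have h3 : hN (m + 1) i t = gg i t - hN m (i + 1) t / LL i := rfl
    rw [h3]
    rcases lt_or_ge t (lf (i + 1)) with h | h
    · rw [hN_left m (i + 1) t (h.le.trans (lf_lt_ww i).le)]
      simpa using gg_range i t
    rcases lt_or_ge (bb (i + 1)) t with h' | h'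
    · rw [hN_right m (i + 1) t h'.le]
      simpa using gg_range i t
    rw [gg_mid h h']
    obtain ⟨a1, a2⟩ := ih (i + 1) t
    have a3 := LL_pos i
    have a4 := LL_one i
    have a5 : hN m (i + 1) t / LL i ≤ cc i := by
      rw [div_le_iff₀ a3]
      have := cc_anti i
      have := cc_pos i
      nlinarith
    have a6 : 0 ≤ hN m (i + 1) t / LL i := div_nonneg a1 a3.le
    constructor <;> linarith

theorem hh_left {i : ℕ} {t : ℝ} (h : t ≤ ww i) : hh i t = 0 := by
  have h1 := hN_tendsto i t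
  simp only [hN_left _ i t h] at h1
  exact tendsto_nhds_unique h1 tendsto_const_nhds

theorem hh_right {i : ℕ} {t : ℝ} (h : bb i ≤ t) : hh i t = 0 := by
  have h1 := hN_tendsto i t
  simp only [hN_right _ i t h] at h1
  exact tendsto_nhds_unique h1 tendsto_const_nhds

theorem hh_range (i : ℕ) (t : ℝ) : 0 ≤ hh i t ∧ hh i t ≤ cc i :=
  ⟨ge_of_tendsto' (hN_tendsto i t) fun m => (hN_range m i t).1,
    le_of_tendsto' (hN_tendsto i t) fun m => (hN_range m i t).2⟩

/-- The intervals `K i`. -/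
def KK (i : ℕ) : Set ℝ := Set.Icc (lf i) (bb i)

theorem KK_anti {i j : ℕ} (h : i ≤ j) : KK j ⊆ KK i :=
  Set.Icc_subset_Icc (lf_mono h) (bb_anti h)

theorem KK_zero : KK 0 = Set.Icc 0 1 := by
  unfold KK
  rw [lf_zero]
  congr 1
  simp only [bb, ee_zero]
  norm_num

/-- On `K (i + 1)` the tail is close to its maximum. -/
theorem hh_mid {i : ℕ} {t : ℝ} (h : t ∈ KK (i + 1)) : hh i t = cc i - hh (i + 1) t / LL i := by
  rw [hh_rec, gg_mid h.1 h.2]

/-- The affine piece. -/
theorem hh_affine {i : ℕ} {r : ℝ} (h0 : 0 ≤ r) (h1 : r ≤ cc (i + 1)) :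
    bb (i + 1) < yy i - r / LL i ∧ ww i + hh i (yy i - r / LL i) = ww (i + 1) + r := by
  have e1 := ee_pos i
  have e2 := LL_pos i
  have e3 := cc_pos i
  have e4 : r / LL i * LL i = r := div_mul_cancel₀ _ e2.ne'
  have e5 := LL_mul i
  have e6 := cc_succ_le i
  have e7 := kk_pos i
  have e8 : 0 ≤ r / LL i := div_nonneg h0 e2.le
  -- the rescaled coordinate
  have hs : 4 / ee i * (bb i - (yy i - r / LL i)) = kk i + r / cc i := by
    have a1 : r / cc i = r / LL i * (4 / ee i) := by
      rw [← e5]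
      field_simp
    rw [a1]
    simp only [yy]
    field_simp
    ring
  have hs1 : kk i ≤ 4 / ee i * (bb i - (yy i - r / LL i)) := by
    rw [hs]
    have : 0 ≤ r / cc i := div_nonneg h0 e3.le
    linarith
  have hs2 : 4 / ee i * (bb i - (yy i - r / LL i)) ≤ 1 - kk i := by
    rw [hs]
    have : r / cc i ≤ 1 - 2 * kk i := by
      rw [div_le_iff₀ e3]
      linarith
    linarith
  have hb : bb (i + 1) < yy i - r / LL i := by
    have a2 : bb i - (yy i - r / LL i) ≤ (1 - kk i) * (ee i / 4) := by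
      have a3 : bb i - (yy i - r / LL i) = 4 / ee i * (bb i - (yy i - r / LL i)) * (ee i / 4) := by
        field_simp
      rw [a3]
      exact mul_le_mul_of_nonneg_right hs2 (by positivity)
    have a4 : bb i - bb (i + 1) = ee i / 4 := by
      simp only [bb, ee_succ]
      ring
    have a5 : 0 < kk i * (ee i / 4) := by positivity
    nlinarith
  refine ⟨hb, ?_⟩
  have hlf : lf (i + 1) ≤ yy i - r / LL i := by
    have a6 := lf_le_ww (i + 1)
    have a7 := ww_lt (i + 1)
    have a8 := bb_gt (i + 1)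
    linarith
  rw [hh_rec, hh_right hb.le, gg_affine hlf hs1 hs2, ww_succ, zero_div, sub_zero]
  simp only [yy]
  have a9 : LL i * (bb i - (bb i - kk i * (ee i / 4) - r / LL i)) =
      kk i * (LL i * (ee i / 4)) + r / LL i * LL i := by ring
  rw [a9, e5, e4]
  ring

theorem KK_ww {i : ℕ} {t : ℝ} : ww i + hh i t ∈ KK i := by
  have h1 := hh_range i t
  have h2 := lf_le_ww i
  have h3 := yy_lt i
  have h4 : cc i = yy i - ww i := rfl
  constructor <;> linarith

/-- Renormalization. -/
theorem renorm (i : ℕ) : ∀ t ∈ KK i, ff^[2 ^ i] t = ww i + hh i t := by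
  induction i with
  | zero =>
    intro t _
    rw [pow_zero, Function.iterate_one, ff_eq, ww_zero, zero_add]
  | succ i ih =>
    intro t ht
    have ht' : t ∈ KK i := KK_anti (Nat.le_succ i) ht
    rw [pow_succ, mul_two, Function.iterate_add_apply, ih t ht', ih _ KK_ww]
    have h1 := hh_range (i + 1) t
    have h2 := hh_affine h1.1 h1.2
    have h3 : ww i + hh i t = yy i - hh (i + 1) t / LL i := by
      rw [hh_mid ht]
      unfold cc
      ring
    rw [h3]
    exact h2.2

theorem renorm_right {i : ℕ} {t : ℝ} (ht : t ∈ KK (i + 1)) : 1 / 2 < ff^[2 ^ i] t := by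
  rw [renorm i t (KK_anti (Nat.le_succ i) ht)]
  have h1 := hh_range (i + 1) t
  have h2 := hh_affine h1.1 h1.2
  have h3 : ww i + hh i t = yy i - hh (i + 1) t / LL i := by
    rw [hh_mid ht]
    unfold cc
    ring
  rw [h3]
  exact (bb_gt (i + 1)).trans h2.1

theorem KK_inv {i : ℕ} {t : ℝ} (ht : t ∈ KK i) (q : ℕ) : ff^[2 ^ i * q] t ∈ KK i := by
  induction q with
  | zero => simpa using ht
  | succ q ih =>
    rw [mul_add, mul_one, add_comm, Function.iterate_add_apply, renorm i _ ih]
    exact KK_ww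

/-- Returns. -/
theorem returns {i : ℕ} {t : ℝ} (ht : t ∈ KK i) (m : ℕ) :
    (2 ^ i ∣ m ∧ ff^[m] t ∈ KK i) ∨ (¬ 2 ^ i ∣ m ∧ 1 / 2 < ff^[m] t) := by
  by_cases h : 2 ^ i ∣ m
  · left
    obtain ⟨q, rfl⟩ := h
    exact ⟨Dvd.intro _ rfl, KK_inv ht q⟩
  · right
    refine ⟨h, ?_⟩
    have hm : m ≠ 0 := by
      rintro rfl
      exact h (dvd_zero _)
    obtain ⟨j, q, hq, rfl⟩ := Nat.exists_eq_two_pow_mul_odd hm
    have hji : j < i := by
      by_contra hcon
      push Not at hcon
      exact h (Dvd.dvd.mul_right (pow_dvd_pow 2 hcon) q)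
    obtain ⟨p, rfl⟩ := hq
    have h1 : 2 ^ j * (2 * p + 1) = 2 ^ j + 2 ^ (j + 1) * p := by ring
    rw [h1, Function.iterate_add_apply]
    exact renorm_right (KK_inv (KK_anti hji ht) p)

end Pool.Agent.Lib.MP_0765f6_an
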